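import Pool.Agent.Q111.CookieGChain

/-!
# Grundy values of arithmetic-progression positions in the cookie game

A position is a finite multiset of heaps. A move chooses a heap of positive size, removes it and
lowers every other heap of positive size by one. The definitions `select` (a move), `grundy` (the
Grundy value), `ap a n` (the position with the heaps `a, a + 1, ..., a + n - 1`) and `g` (the
function with period `6`) are in `Pool.Agent.Q111.CookieGDefs`.
-/

namespace Pool.Agent.Results.MP_c8e9c8_co.GrundyAP

open Q111.CookieG

/-- For all `a ≥ 1` and all `n ≥ 2a - 2`, the Grundy value of the AP-position with the heaps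
`a, a + 1, ..., a + n - 1` is `g (a + n)`. -/
theorem result (a n : ℕ) (ha : 1 ≤ a) (hn : 2 * a ≤ n + 2) : grundy (ap a n) = g (a + n) :=
  main a n ha hn

end Pool.Agent.Results.MP_c8e9c8_co.GrundyAP
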